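import Pool.Agent.H5.EG.Spec3

set_option autoImplicit false

/-!
Independence of products of real powers of the `1 - x^k` in different classes modulo integral
exponents (`S_indep`).
-/

namespace Pool.Agent.H225.EG.Indep

open Pool.Agent.H5.EG Polynomial

/-- the product of all `1 - X^k` -/
noncomputable def Qp (K : Finset ℕ) : ℝ[X] := ∏ k ∈ K, (1 - X ^ k)

/-- the numerator of the logarithmic derivative -/
noncomputable def qp (K : Finset ℕ) (e : ℕ → ℝ) : ℝ[X] :=
  ∑ k ∈ K, C (e k) * derivative (1 - X ^ k) * ∏ j ∈ K.erase k, (1 - X ^ j)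

theorem fac_pos {K : Finset ℕ} (h0 : 0 ∉ K) {k : ℕ} (hk : k ∈ K) {x : ℝ} (hx : 0 < x)
    (hx1 : x < 1) : 0 < 1 - x ^ k := by
  have h1 : k ≠ 0 := fun h => h0 (h ▸ hk)
  have h2 := pow_lt_one₀ hx.le hx1 h1
  linarith

theorem PR_pos {K : Finset ℕ} (h0 : 0 ∉ K) (e : ℕ → ℝ) {x : ℝ} (hx : 0 < x) (hx1 : x < 1) :
    0 < PR K e x :=
  Finset.prod_pos fun _ hk => Real.rpow_pos_of_pos (fac_pos h0 hk hx hx1) _

theorem Q_eval (K : Finset ℕ) (x : ℝ) : (Qp K).eval x = ∏ k ∈ K, (1 - x ^ k) := by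
  unfold Qp
  rw [eval_prod]
  simp

theorem Q_pos {K : Finset ℕ} (h0 : 0 ∉ K) {x : ℝ} (hx : 0 < x) (hx1 : x < 1) :
    0 < (Qp K).eval x := by
  rw [Q_eval]
  exact Finset.prod_pos fun _ hk => fac_pos h0 hk hx hx1

theorem PR_deriv {K : Finset ℕ} (h0 : 0 ∉ K) (e : ℕ → ℝ) {x : ℝ} (hx : 0 < x) (hx1 : x < 1) :
    ∃ D, HasDerivAt (PR K e) D x ∧ (Qp K).eval x * D = (qp K e).eval x * PR K e x := by
  classical
  have h1 : ∀ k ∈ K, HasDerivAt (fun y : ℝ => (1 - y ^ k) ^ (e k))
      ((derivative (1 - X ^ k : ℝ[X])).eval x * e k * (1 - x ^ k) ^ (e k - 1)) x := by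
    intro k hk
    have h2 : HasDerivAt (fun y : ℝ => 1 - y ^ k) ((derivative (1 - X ^ k : ℝ[X])).eval x) x := by
      have h4 := (1 - X ^ k : ℝ[X]).hasDerivAt x
      have h5 : (fun y : ℝ => (1 - X ^ k : ℝ[X]).eval y) = fun y : ℝ => 1 - y ^ k := by
        funext y
        simp
      rw [h5] at h4
      exact h4
    exact h2.rpow_const (Or.inl (fac_pos h0 hk hx hx1).ne')
  have h3 := HasDerivAt.fun_finsetProd h1
  refine ⟨_, h3, ?_⟩
  have hq : (qp K e).eval x = ∑ k ∈ K, e k * (derivative (1 - X ^ k : ℝ[X])).eval x *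
      ∏ j ∈ K.erase k, (1 - x ^ j) := by
    unfold qp
    rw [eval_finsetSum]
    refine Finset.sum_congr rfl fun k _ => ?_
    rw [eval_mul, eval_mul, eval_C, eval_prod]
    simp
  rw [hq, Q_eval, Finset.mul_sum, Finset.sum_mul]
  refine Finset.sum_congr rfl fun i hi => ?_
  have hp := fac_pos h0 hi hx hx1
  have h6 : ∏ k ∈ K, (1 - x ^ k) = (1 - x ^ i) * ∏ k ∈ K.erase i, (1 - x ^ k) :=
    (Finset.mul_prod_erase K _ hi).symm
  have h7 : PR K e x = (1 - x ^ i) ^ (e i) * ∏ k ∈ K.erase i, (1 - x ^ k) ^ (e k) :=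
    (Finset.mul_prod_erase K _ hi).symm
  rw [h6, h7, smul_eq_mul, Real.rpow_sub_one hp.ne']
  field_simp

/-- `(Q (R P)')` -/
theorem term_deriv {K : Finset ℕ} (h0 : 0 ∉ K) (e : ℕ → ℝ) (R : ℝ[X]) {x : ℝ} (hx : 0 < x)
    (hx1 : x < 1) : ∃ D, HasDerivAt (fun y => R.eval y * PR K e y) D x ∧
      (Qp K).eval x * D =
        ((Qp K).eval x * (derivative R).eval x + R.eval x * (qp K e).eval x) * PR K e x := by
  obtain ⟨D, hD, hD'⟩ := PR_deriv h0 e hx hx1
  refine ⟨_, (R.hasDerivAt x).mul hD, ?_⟩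
  linear_combination R.eval x * hD'

theorem shift {K : Finset ℕ} (h0 : 0 ∉ K) {e e' : ℕ → ℝ} {m : ℕ → ℕ} {M : ℕ}
    (h : ∀ k ∈ K, e k + M = e' k + m k) {x : ℝ} (hx : 0 < x) (hx1 : x < 1) :
    PR K e x * (Qp K).eval x ^ M = PR K e' x * ∏ k ∈ K, (1 - x ^ k) ^ m k := by
  rw [Q_eval]
  unfold PR
  rw [← Finset.prod_pow, ← Finset.prod_mul_distrib, ← Finset.prod_mul_distrib]
  refine Finset.prod_congr rfl fun k hk => ?_
  have hp := fac_pos h0 hk hx hx1
  rw [← Real.rpow_natCast (1 - x ^ k) M, ← Real.rpow_natCast (1 - x ^ k) (m k), ← Real.rpow_add hp,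
    ← Real.rpow_add hp, h k hk]

theorem eq_zero_of_Ioo {H : ℝ[X]} {v : ℝ} (hv : 0 < v)
    (h : ∀ x, 0 < x → x < v → H.eval x = 0) : H = 0 := by
  refine Polynomial.eq_zero_of_infinite_isRoot H ?_
  refine (Set.Ioo_infinite hv).mono ?_
  intro x hx
  exact h x hx.1 hx.2

theorem exists_gap {R : ℝ[X]} (hR : R ≠ 0) : ∃ v : ℝ, 0 < v ∧ v ≤ 1 ∧
    ∀ x, 0 < x → x < v → R.eval x ≠ 0 := by
  have h1 : ({x | R.IsRoot x} \ {0} : Set ℝ).Finite := (Polynomial.finite_setOfPred_isRoot hR).sdiff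
  have h2 : ({x | R.IsRoot x} \ {0} : Set ℝ)ᶜ ∈ nhds (0 : ℝ) :=
    h1.isClosed.isOpen_compl.mem_nhds (by simp)
  obtain ⟨ε, hε, hball⟩ := Metric.mem_nhds_iff.1 h2
  refine ⟨min ε 1, lt_min hε one_pos, min_le_right _ _, fun x hx hx1 h3 => ?_⟩
  have h4 : x ∈ Metric.ball (0 : ℝ) ε := by
    rw [Metric.mem_ball, Real.dist_eq, sub_zero, abs_of_pos hx]
    exact lt_of_lt_of_le hx1 (min_le_left _ _)
  exact hball h4 ⟨h3, hx.ne'⟩

/-- the last step: `T₀` against `s` -/
theorem final (h : S_rat) {K : Finset ℕ} (h0 : 0 ∉ K) {ι : Type} (T₀ : Finset ι) (t₀ s : ι)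
    (e : ι → ℕ → ℝ) (R : ι → ℝ[X])
    (hT : ∀ t ∈ T₀, ∀ k ∈ K, ∃ n : ℤ, e t k - e t₀ k = n)
    (hs : ¬ ∀ k ∈ K, ∃ n : ℤ, e s k - e t₀ k = n) (hRs : R s ≠ 0)
    {v l : ℝ} (hv : 0 < v) (hv1 : v ≤ 1)
    (hl : ∀ x, 0 < x → x < v →
      ∑ t ∈ T₀, (R t).eval x * PR K (e t) x = l * ((R s).eval x * PR K (e s) x)) :
    ∀ x : ℝ, 0 < x → x < 1 → ∑ t ∈ T₀, (R t).eval x * PR K (e t) x = 0 := by
  classical
  have hn : ∀ t k, ∃ n : ℤ, t ∈ T₀ → k ∈ K → e t k - e t₀ k = n := by
    intro t k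
    by_cases ht : t ∈ T₀
    · by_cases hk : k ∈ K
      · obtain ⟨n, hn⟩ := hT t ht k hk
        exact ⟨n, fun _ _ => hn⟩
      · exact ⟨0, fun _ h => absurd h hk⟩
    · exact ⟨0, fun h => absurd h ht⟩
  choose n hn using hn
  set M : ℕ := ∑ t ∈ T₀, ∑ k ∈ K, (n t k).natAbs with hM
  have hle : ∀ t ∈ T₀, ∀ k ∈ K, (n t k).natAbs ≤ M := by
    intro t ht k hk
    refine le_trans (Finset.single_le_sum (f := fun k => (n t k).natAbs) (fun _ _ => Nat.zero_le _) hk) ?_
    exact Finset.single_le_sum (f := fun t => ∑ k ∈ K, (n t k).natAbs) (fun _ _ => Nat.zero_le _) ht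
  let m : ι → ℕ → ℕ := fun t k => ((M : ℤ) + n t k).toNat
  have hm : ∀ t ∈ T₀, ∀ k ∈ K, e t k + M = e t₀ k + m t k := by
    intro t ht k hk
    have h1 := hle t ht k hk
    have h2 : ((m t k : ℕ) : ℤ) = (M : ℤ) + n t k := Int.toNat_of_nonneg (by omega)
    have h3 : ((m t k : ℕ) : ℝ) = (M : ℝ) + n t k := by exact_mod_cast h2
    rw [h3]
    have h4 := hn t k ht hk
    linarith
  let H : ℝ[X] := ∑ t ∈ T₀, R t * ∏ k ∈ K, (1 - X ^ k) ^ m t k
  have hH : ∀ x : ℝ, 0 < x → x < 1 →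
      (∑ t ∈ T₀, (R t).eval x * PR K (e t) x) * (Qp K).eval x ^ M = H.eval x * PR K (e t₀) x := by
    intro x hx hx1
    have h1 : H.eval x = ∑ t ∈ T₀, (R t).eval x * ∏ k ∈ K, (1 - x ^ k) ^ m t k := by
      simp only [H, eval_finsetSum, eval_mul, eval_prod, eval_pow, eval_sub, eval_one, eval_X]
    rw [h1, Finset.sum_mul, Finset.sum_mul]
    refine Finset.sum_congr rfl fun t ht => ?_
    have h2 := shift h0 (hm t ht) hx hx1
    linear_combination (R t).eval x * h2
  by_cases hl0 : l = 0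
  · have hH0 : H = 0 := by
      apply eq_zero_of_Ioo hv
      intro x hx hxv
      have h1 := hH x hx (hxv.trans_le hv1)
      rw [hl x hx hxv, hl0, zero_mul, zero_mul] at h1
      rcases mul_eq_zero.1 h1.symm with h2 | h2
      · exact h2
      · exact absurd h2 (PR_pos h0 _ hx (hxv.trans_le hv1)).ne'
    intro x hx hx1
    have h1 := hH x hx hx1
    rw [hH0, eval_zero, zero_mul] at h1
    rcases mul_eq_zero.1 h1 with h2 | h2
    · exact h2
    · exact absurd h2 (pow_ne_zero _ (Q_pos h0 hx hx1).ne')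
  · exfalso
    apply hs
    have hQ0 : Qp K ≠ 0 := by
      intro h1
      have := Q_pos h0 (x := 1 / 2) (by norm_num) (by norm_num)
      rw [h1, eval_zero] at this
      exact lt_irrefl _ this
    refine h K (fun k => e s k - e t₀ k) H (C l * R s * Qp K ^ M) 0 v h0 le_rfl hv hv1 ?_ ?_
    · exact mul_ne_zero (mul_ne_zero (C_ne_zero.2 hl0) hRs) (pow_ne_zero _ hQ0)
    · intro x hx hxv
      have hx1 := hxv.trans_le hv1
      have h1 := hH x hx hx1
      rw [hl x hx hxv] at h1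
      have h2 : PR K (e s) x = PR K (fun k => e s k - e t₀ k) x * PR K (e t₀) x := by
        unfold PR
        rw [← Finset.prod_mul_distrib]
        refine Finset.prod_congr rfl fun k hk => ?_
        rw [← Real.rpow_add (fac_pos h0 hk hx hx1)]
        congr 1
        ring
      rw [h2] at h1
      have h3 := (PR_pos h0 (e t₀) hx hx1).ne'
      have h4 : PR K (fun k => e s k - e t₀ k) x * (C l * R s * Qp K ^ M).eval x * PR K (e t₀) x =
          H.eval x * PR K (e t₀) x := by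
        rw [← h1, eval_mul, eval_mul, eval_C, eval_pow]
        ring
      exact mul_right_cancel₀ h3 h4

/-- the function is a multiple of `R P` if it is killed by the operator -/
theorem const {K : Finset ℕ} (h0 : 0 ∉ K) {ι : Type} (T₀ : Finset ι) (s : ι)
    (e : ι → ℕ → ℝ) (R : ι → ℝ[X]) {v : ℝ} (hv : 0 < v) (hv1 : v ≤ 1)
    (hRs : ∀ x, 0 < x → x < v → (R s).eval x ≠ 0)
    (hL : ∀ x : ℝ, 0 < x → x < 1 → ∑ t ∈ T₀,
      (Qp K * R s * derivative (R t) + R s * R t * qp K (e t) -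
        (Qp K * derivative (R s) + R s * qp K (e s)) * R t).eval x * PR K (e t) x = 0) :
    ∃ l : ℝ, ∀ x, 0 < x → x < v →
      ∑ t ∈ T₀, (R t).eval x * PR K (e t) x = l * ((R s).eval x * PR K (e s) x) := by
  classical
  let h : ℝ → ℝ := fun x => ∑ t ∈ T₀, (R t).eval x * PR K (e t) x
  let g : ℝ → ℝ := fun x => (R s).eval x * PR K (e s) x
  have hg0 : ∀ x, 0 < x → x < v → g x ≠ 0 := fun x hx hxv =>
    mul_ne_zero (hRs x hx hxv) (PR_pos h0 _ hx (hxv.trans_le hv1)).ne'
  have key : ∀ x, 0 < x → x < v → HasDerivAt (fun y => h y / g y) 0 x := by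
    intro x hx hxv
    have hx1 := hxv.trans_le hv1
    have hQ := (Q_pos h0 hx hx1).ne'
    obtain ⟨Dg, hDg, hDg'⟩ := term_deriv h0 (e s) (R s) hx hx1
    have h1 : ∀ t, ∃ D, HasDerivAt (fun y => (R t).eval y * PR K (e t) y) D x ∧
        (Qp K).eval x * D = ((Qp K).eval x * (derivative (R t)).eval x +
          (R t).eval x * (qp K (e t)).eval x) * PR K (e t) x := fun t =>
      term_deriv h0 (e t) (R t) hx hx1
    choose D hD hD' using h1
    have hh : HasDerivAt h (∑ t ∈ T₀, D t) x := HasDerivAt.fun_sum fun t _ => hD t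
    have h2 := hh.div hDg (hg0 x hx hxv)
    have h3 : (∑ t ∈ T₀, D t) * g x - h x * Dg = 0 := by
      have h4 : (Qp K).eval x * ((∑ t ∈ T₀, D t) * g x - h x * Dg) = 0 := by
        have h5 : (Qp K).eval x * ((∑ t ∈ T₀, D t) * g x - h x * Dg) =
            (∑ t ∈ T₀, (Qp K).eval x * D t) * g x - h x * ((Qp K).eval x * Dg) := by
          rw [← Finset.mul_sum]
          ring
        rw [h5, hDg']
        have h6 : (∑ t ∈ T₀, (Qp K).eval x * D t) = ∑ t ∈ T₀, ((Qp K).eval x *
            (derivative (R t)).eval x + (R t).eval x * (qp K (e t)).eval x) * PR K (e t) x :=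
          Finset.sum_congr rfl fun t _ => hD' t
        rw [h6]
        have h7 := hL x hx hx1
        simp only [eval_sub, eval_add, eval_mul] at h7
        have h8 : (∑ t ∈ T₀, ((Qp K).eval x * (derivative (R t)).eval x +
            (R t).eval x * (qp K (e t)).eval x) * PR K (e t) x) * g x - h x *
            (((Qp K).eval x * (derivative (R s)).eval x + (R s).eval x * (qp K (e s)).eval x) *
              PR K (e s) x) = PR K (e s) x * ∑ t ∈ T₀,
            ((Qp K).eval x * (R s).eval x * (derivative (R t)).eval x +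
              (R s).eval x * (R t).eval x * (qp K (e t)).eval x -
            ((Qp K).eval x * (derivative (R s)).eval x + (R s).eval x * (qp K (e s)).eval x) *
              (R t).eval x) * PR K (e t) x := by
          simp only [h, g]
          rw [Finset.sum_mul, Finset.sum_mul, ← Finset.sum_sub_distrib, Finset.mul_sum]
          refine Finset.sum_congr rfl fun t _ => ?_
          ring
        rw [h8, h7, mul_zero]
      exact (mul_eq_zero.1 h4).resolve_left hQ
    have h9 : ((∑ t ∈ T₀, D t) * g x - h x * Dg) / g x ^ 2 = 0 := by rw [h3, zero_div]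
    rw [← h9]
    exact h2
  have hconst : ∀ x ∈ Set.Ioo (0 : ℝ) v, ∀ y ∈ Set.Ioo (0 : ℝ) v, h x / g x = h y / g y := by
    intro x hx y hy
    refine isOpen_Ioo.is_const_of_deriv_eq_zero isPreconnected_Ioo
      (f := fun y => h y / g y) ?_ ?_ hx hy
    · intro z hz
      exact (key z hz.1 hz.2).differentiableAt.differentiableWithinAt
    · intro z hz
      exact (key z hz.1 hz.2).deriv
  refine ⟨h (v / 2) / g (v / 2), fun x hx hxv => ?_⟩
  have h1 := hconst x ⟨hx, hxv⟩ (v / 2) ⟨by linarith, by linarith⟩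
  have h2 := hg0 x hx hxv
  have h3 : h x = h (v / 2) / g (v / 2) * g x := by
    rw [← h1]
    field_simp
  exact h3

theorem main (h : S_rat) {K : Finset ℕ} (h0 : 0 ∉ K) {ι : Type} [DecidableEq ι] (T₀ : Finset ι)
    (t₀ : ι) (e : ι → ℕ → ℝ) (N : ℕ) : ∀ (T : Finset ι) (R : ι → ℝ[X]), T.card = N → T₀ ⊆ T →
    (∀ t ∈ T, t ∈ T₀ ↔ ∀ k ∈ K, ∃ n : ℤ, e t k - e t₀ k = n) →
    (∀ x : ℝ, 0 < x → x < 1 → ∑ t ∈ T, (R t).eval x * PR K (e t) x = 0) →
    ∀ x : ℝ, 0 < x → x < 1 → ∑ t ∈ T₀, (R t).eval x * PR K (e t) x = 0 := by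
  induction N with
  | zero =>
    intro T R hT hT₀ _ hsum
    have h1 : T = ∅ := Finset.card_eq_zero.1 hT
    have h2 : T₀ = ∅ := Finset.subset_empty.1 (h1 ▸ hT₀)
    intro x _ _
    rw [h2, Finset.sum_empty]
  | succ N ih =>
    intro T R hT hT₀ hcl hsum
    by_cases hTT : T ⊆ T₀
    · have h1 : T = T₀ := Finset.Subset.antisymm hTT hT₀
      rw [← h1]
      exact hsum
    · obtain ⟨s, hsT, hsT₀⟩ := Finset.not_subset.1 hTT
      have hcard : (T.erase s).card = N := by
        rw [Finset.card_erase_of_mem hsT, hT]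
        rfl
      have hsub : T₀ ⊆ T.erase s := fun t ht =>
        Finset.mem_erase.2 ⟨fun h => hsT₀ (h ▸ ht), hT₀ ht⟩
      have hcl' : ∀ t ∈ T.erase s, t ∈ T₀ ↔ ∀ k ∈ K, ∃ n : ℤ, e t k - e t₀ k = n :=
        fun t ht => hcl t (Finset.mem_of_mem_erase ht)
      by_cases hRs : R s = 0
      · refine ih (T.erase s) R hcard hsub hcl' ?_
        intro x hx hx1
        have h1 := hsum x hx hx1
        rw [← Finset.add_sum_erase T _ hsT, hRs, eval_zero, zero_mul, zero_add] at h1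
        exact h1
      · let R' : ι → ℝ[X] := fun t => Qp K * R s * derivative (R t) + R s * R t * qp K (e t) -
          (Qp K * derivative (R s) + R s * qp K (e s)) * R t
        have hR's : R' s = 0 := by
          simp only [R']
          ring
        have hsum' : ∀ x : ℝ, 0 < x → x < 1 →
            ∑ t ∈ T.erase s, (R' t).eval x * PR K (e t) x = 0 := by
          intro x hx hx1
          have h1 : ∀ t, ∃ D, HasDerivAt (fun y => (R t).eval y * PR K (e t) y) D x ∧
              (Qp K).eval x * D = ((Qp K).eval x * (derivative (R t)).eval x +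
                (R t).eval x * (qp K (e t)).eval x) * PR K (e t) x := fun t =>
            term_deriv h0 (e t) (R t) hx hx1
          choose D hD hD' using h1
          have h2 : HasDerivAt (fun y => ∑ t ∈ T, (R t).eval y * PR K (e t) y)
              (∑ t ∈ T, D t) x := HasDerivAt.fun_sum fun t _ => hD t
          have h3 : (fun y => ∑ t ∈ T, (R t).eval y * PR K (e t) y) =ᶠ[nhds x] fun _ => (0 : ℝ) := by
            filter_upwards [Ioo_mem_nhds hx hx1] with y hy
            exact hsum y hy.1 hy.2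
          have h4 : (∑ t ∈ T, D t) = 0 :=
            h2.unique ((hasDerivAt_const x (0 : ℝ)).congr_of_eventuallyEq h3)
          have h5 : ∑ t ∈ T, (R' t).eval x * PR K (e t) x = 0 := by
            have h6 : ∀ t ∈ T, (R' t).eval x * PR K (e t) x =
                (R s).eval x * ((Qp K).eval x * D t) - ((Qp K).eval x * (derivative (R s)).eval x +
                  (R s).eval x * (qp K (e s)).eval x) * ((R t).eval x * PR K (e t) x) := by
              intro t _
              rw [hD' t]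
              simp only [R', eval_sub, eval_add, eval_mul]
              ring
            rw [Finset.sum_congr rfl h6, Finset.sum_sub_distrib, ← Finset.mul_sum,
              ← Finset.mul_sum, ← Finset.mul_sum, h4, hsum x hx hx1]
            ring
          rw [← Finset.add_sum_erase T _ hsT, hR's, eval_zero, zero_mul, zero_add] at h5
          exact h5
        have hL := ih (T.erase s) R' hcard hsub hcl' hsum'
        obtain ⟨v, hv, hv1, hgap⟩ := exists_gap hRs
        obtain ⟨l, hl⟩ := const h0 T₀ s e R hv hv1 hgap hL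
        refine final h h0 T₀ t₀ s e R ?_ ?_ hRs hv hv1 hl
        · intro t ht
          exact (hcl t (hT₀ ht)).1 ht
        · intro hcon
          exact hsT₀ ((hcl s hsT).2 hcon)

theorem indep (h : S_rat) : S_indep := by
  intro K ι _ T T₀ t₀ e R h0 _ hT₀ hcl hsum
  exact main h h0 T₀ t₀ e T.card T R rfl hT₀ hcl hsum

end Pool.Agent.H225.EG.Indep
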